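import Pool.Agent.H9.CA.TarG
import Pool.Agent.H14.SF.LHE
import Pool.Agent.H7.SF.ReflS
import Pool.Agent.H68.SF.LDX

/-!
# Part G, (GD): the sizes
-/

set_option linter.unusedVariables false

open Ordinal Order Set
open scoped ZFSet

namespace CAA

open SF

namespace GDx

/-- relation for the least ordinal which is not small -/
def R1 (M : V → Prop) (w : ℕ → V) : Prop := ¬ Sm M (LAS ∅ (w 1)) (w 0)

/-- relation for the next level -/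
def R2 (M : V → Prop) (w : ℕ → V) : Prop := w 1 ∈ w 0 ∧ ZFm (· ∈ LAS ∅ (w 0)) ∧
  ∀ x, M x → x ⊆ LAS ∅ (w 1) → x ∈ LAS ∅ (w 0)

/-- the relation on `C × C` given by a function `h` -/
noncomputable def Rl (C h : V) : V :=
  (ZFSet.prod C C).sep fun z => app h (fst z) ∈ app h (snd z)

/-- relation for the order type: `w 0` the ordinal, `w 1` the relation, `w 2 = C`, `w 3 = κ` -/
def R3 (M : V → Prop) (w : ℕ → V) : Prop := w 0 ∈ w 3 ∧ ∃ h, M h ∧ (Onto h (w 2) (w 0) ∧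
  w 1 = Rl (w 2) h)

theorem dfb_R1 (hSm : Dfb ZFm (fun M v => Sm M (v 0) (v 1))) : Dfb ZFm R1 :=
  (Dfb.at2 (P := fun M x y => Sm M x y) hSm (Tm.LAS Tm.empty (Tm.var 1)) (Tm.var 0)).not

theorem dfb_R2 : Dfb ZFm R2 := by
  refine (Dfb.mem (Tm.var 1) (Tm.var 0)).and ((Dfb.zfm (Tm.LAS Tm.empty (Tm.var 0))).and ?_)
  exact (Dfb.all (R := fun _ w => w 0 ⊆ LAS ∅ (w 2) → w 0 ∈ LAS ∅ (w 1))
    ((Dfb.subset (Tm.var 0) (Tm.LAS Tm.empty (Tm.var 2))).imp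
      (Dfb.mem (Tm.var 0) (Tm.LAS Tm.empty (Tm.var 1))))).congr fun M k v hv => Iff.rfl

theorem tm_Rl {f g : (V → Prop) → (ℕ → V) → V} (hf : Tm ZFm f) (hg : Tm ZFm g) :
    Tm ZFm (fun M v => Rl (f M v) (g M v)) := by
  refine Tm.at2 (F := fun _ x y => Rl x y) ?_ hf hg
  exact (Tm.sep (R := fun _ w => app (w 2) (fst (w 0)) ∈ app (w 2) (snd (w 0)))
    (Dfb.mem (Tm.app (Tm.var 2) (Tm.fst (Tm.var 0))) (Tm.app (Tm.var 2) (Tm.snd (Tm.var 0))))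
    (Tm.prod (Tm.var 0) (Tm.var 0))).congr fun M k v hv => rfl

theorem dfb_R3 : Dfb ZFm R3 := by
  refine (Dfb.mem (Tm.var 0) (Tm.var 3)).and ?_
  exact (Dfb.ex (R := fun _ w => Onto (w 0) (w 3) (w 1) ∧ w 2 = Rl (w 3) (w 0))
    ((Dfb.onto (Tm.var 0) (Tm.var 3) (Tm.var 1)).and
      (Dfb.eq (Tm.var 2) (tm_Rl (Tm.var 3) (Tm.var 0))))).congr fun M k v hv => Iff.rfl

/-- the recursion -/
noncomputable def gam (M : V → Prop) (x : V) : V :=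
  lea R2 M fun _ => lea R2 M fun _ =>
    (⋃₀ (ZFSet.range fun l : {l // l ∈ x} =>
      insert (lea R1 M fun _ => gam M l.1) (lea R1 M fun _ => gam M l.1)) : ZFSet)
termination_by x.rank
decreasing_by
  · exact ZFSet.rank_lt_of_mem l.2
  · exact ZFSet.rank_lt_of_mem l.2

theorem gam_eq (M : V → Prop) (x : V) : gam M x =
    lea R2 M fun _ => lea R2 M fun _ =>
      (⋃₀ (imS x fun l => insert (lea R1 M fun _ => gam M l) (lea R1 M fun _ => gam M l)) :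
        ZFSet) := by
  rw [gam]
  rfl

theorem tm_lea1 {R : (V → Prop) → (ℕ → V) → Prop} (hR : Dfb ZFm R)
    {f : (V → Prop) → (ℕ → V) → V} (hf : Tm ZFm f) :
    Tm ZFm (fun M v => lea R M fun _ => f M v) :=
  ((Tm.lea hR).comp (fun _ => f) fun _ => hf).congr fun M k v hv => rfl

theorem tm_gam (hSm : Dfb ZFm (fun M v => Sm M (v 0) (v 1))) :
    Tm ZFm (fun M v => gam M (v 0)) := by
  refine tm_recu (ext := fun _ v => v 0) (Φ := fun M u => lea R2 M fun _ => lea R2 M fun _ =>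
      (⋃₀ (imS (u 1) fun l => insert (lea R1 M fun _ => app (u 0) l)
        (lea R1 M fun _ => app (u 0) l)) : ZFSet)) ZFSet.rank (Tm.var 0) ?_ ?_ ?_
  · refine tm_lea1 dfb_R2 (tm_lea1 dfb_R2 ?_)
    have h1 : Tm ZFm (fun M u => lea R1 M fun _ => app (u 1) (u 0)) :=
      tm_lea1 (dfb_R1 hSm) (Tm.app (Tm.var 1) (Tm.var 0))
    exact (Tm.iUn (f := fun _ u => u 1)
      (g := fun M u => insert (lea R1 M fun _ => app (u 1) (u 0))
        (lea R1 M fun _ => app (u 1) (u 0))) (Tm.var 1) (Tm.ins h1 h1)).congr fun M k v hv => rfl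
  · intro M k v hv y hy
    exact ZFSet.rank_lt_of_mem hy
  · intro M k v hv
    simp only [cons_zero, cons_succ]
    rw [gam_eq]
    have e : (imS (v 0) fun l => insert (lea R1 M fun _ => gam M l) (lea R1 M fun _ => gam M l)) =
        imS (v 0) fun l => insert (lea R1 M fun _ => app (resS (v 0) fun y => gam M y) l)
          (lea R1 M fun _ => app (resS (v 0) fun y => gam M y) l) := by
      ext z
      rw [mem_imS, mem_imS]
      refine exists_congr fun x => and_congr_right fun hx => ?_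
      rw [app_resS hx]
    rw [e]

/-- a surjection is determined by its relation, up to the values -/
theorem rl_inj {C h h' : V} {m m' : Ordinal.{0}} (ho : Onto h C m.toZFSet)
    (ho' : Onto h' C m'.toZFSet) (e : Rl C h = Rl C h') : m = m' := by
  have key : ∀ a ∈ C, ∀ b ∈ C, app h a ∈ app h b ↔ app h' a ∈ app h' b := by
    intro a ha b hb
    have h1 : ∀ g, ZFSet.pair a b ∈ Rl C g ↔ app g a ∈ app g b := by
      intro g
      unfold Rl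
      rw [ZFSet.mem_sep, ZFSet.pair_mem_prod, fst_pair, snd_pair]
      exact ⟨fun h => h.2, fun h => ⟨⟨ha, hb⟩, h⟩⟩
    rw [← h1 h, e, h1 h']
  have sur : ∀ {g : V} {n : Ordinal.{0}}, Onto g C n.toZFSet → ∀ y ∈ n.toZFSet,
      ∃ a ∈ C, app g a = y := by
    intro g n hg y hy
    obtain ⟨a, ha, hay⟩ := hg.2 y hy
    exact ⟨a, ha, app_eq (svl_of_isFunc hg.1) hay⟩
  have tr : ∀ n : Ordinal.{0}, n.toZFSet.IsTransitive := fun n => (isOrd_iff _).1 ⟨n, rfl⟩ |>.1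
  have eq : ∀ r : Ordinal.{0}, ∀ a ∈ C, (app h a).rank = r → app h a = app h' a := by
    intro r
    induction r using WellFoundedLT.induction with
    | _ r ih =>
      intro a ha hr
      ext z
      constructor
      · intro hz
        obtain ⟨b, hb, rfl⟩ := sur ho z ((tr m).subset_of_mem (app_mem ho.1 ha) hz)
        rw [ih _ (hr ▸ ZFSet.rank_lt_of_mem hz) b hb rfl]
        exact (key b hb a ha).1 hz
      · intro hz
        obtain ⟨b, hb, rfl⟩ := sur ho' z ((tr m').subset_of_mem (app_mem ho'.1 ha) hz)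
        have h2 := (key b hb a ha).2 hz
        rw [← ih _ (hr ▸ ZFSet.rank_lt_of_mem h2) b hb rfl]
        exact h2
  have e2 : m.toZFSet = m'.toZFSet := by
    ext z
    constructor
    · intro hz
      obtain ⟨a, ha, rfl⟩ := sur ho z hz
      rw [eq _ a ha rfl]
      exact app_mem ho'.1 ha
    · intro hz
      obtain ⟨a, ha, rfl⟩ := sur ho' z hz
      rw [← eq _ a ha rfl]
      exact app_mem ho.1 ha
  exact Ordinal.toZFSet_injective e2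

/-- height -/
theorem ht {γ : Ordinal.{0}} (h : ZFm (· ∈ LA ∅ γ)) :
    IsSuccLimit γ ∧ ∀ α : Ordinal.{0}, α.toZFSet ∈ LA ∅ γ ↔ α < γ :=
  pf_LHE pf_LHT ∅ ∅ γ ZFSet.isTransitive_empty h h.mempty h.mempty

theorem ord_sub (γ : Ordinal.{0}) : γ.toZFSet ⊆ LA ∅ γ := by
  intro x hx
  obtain ⟨β, hβ, rfl⟩ := Ordinal.mem_toZFSet_iff.1 hx
  exact ord_mem_Lh ZFSet.isTransitive_empty hβ

theorem LA_mem {β γ : Ordinal.{0}} (h : ZFm (· ∈ LA ∅ γ)) (hβ : β < γ) : LA ∅ β ∈ LA ∅ γ := by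
  have h1 := (Tm.LAS Tm.empty (Tm.var 0)).1 (· ∈ LA ∅ γ) h (fun _ => β.toZFSet)
    fun _ => ((ht h).2 β).2 hβ
  simp only [LAS_ord] at h1
  exact h1

/-- the least ordinal which is not an image of `L_g` -/
theorem mu0 {κ χ θ : Ordinal.{0}} (hG : Grd κ χ θ)
    (hSm : Dfb ZFm (fun M v => Sm M (v 0) (v 1))) {g : Ordinal.{0}} (hg : g < κ) :
    ∃ m < κ, lea R1 (· ∈ LA ∅ θ) (fun _ => g.toZFSet) = m.toZFSet ∧
      ¬ Sm (· ∈ LA ∅ θ) (LA ∅ g) m.toZFSet ∧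
      ∀ δ < m, Sm (· ∈ LA ∅ θ) (LA ∅ g) δ.toZFSet := by
  have k : ZFm (· ∈ LA ∅ θ) := hG.zfc.toZFm
  have hκθ : κ < θ := hG.κχ.trans hG.χθ
  have hle : ∀ x ∈ LA ∅ κ, x ∈ LA ∅ θ := fun x hx => Lh_mono hκθ.le hx
  have hκl := (ht hG.zκ).1
  have hC : LA ∅ g ∈ LA ∅ κ := LA_mem hG.zκ hg
  have hR1 : ∀ m : Ordinal.{0}, R1 (· ∈ LA ∅ θ) (cons m.toZFSet fun _ => g.toZFSet) ↔
      ¬ Sm (· ∈ LA ∅ θ) (LA ∅ g) m.toZFSet := by
    intro m
    unfold R1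
    simp only [cons_zero, cons_succ, LAS_ord]
  -- existence
  have hex : ∃ m < κ, ¬ Sm (· ∈ LA ∅ θ) (LA ∅ g) m.toZFSet := by
    by_contra hcon
    push Not at hcon
    have hP : ZFSet.prod (LA ∅ g) (LA ∅ g) ∈ LA ∅ κ :=
      (Tm.prod (Tm.var 0) (Tm.var 0)).1 (· ∈ LA ∅ κ) hG.zκ (fun _ => LA ∅ g) fun _ => hC
    obtain ⟨ρ, hρ, hρ2⟩ := hG.powκ _ hP
    have hy : LA ∅ ρ ∈ LA ∅ κ := LA_mem hG.zκ hρ
    have hT : Tm ZFm (fun M w => SF.resS (w 0) fun x => lea R3 M (cons x fun i => w (i + 1))) :=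
      (Tm.resS (f := fun _ w => w 0) (g := fun M u => lea R3 M (cons (u 0) fun i => u (i + 2)))
        (Tm.var 0) ((Tm.lea dfb_R3).push (Tm.var 0) fun i => i + 2)).congr fun M k v hv => rfl
    have hv : In (· ∈ LA ∅ θ) (cons (LA ∅ ρ) (cons (LA ∅ g) fun _ => κ.toZFSet)) :=
      (In.cons (fun _ => (hG.ord κ).2 hκθ) (hle _ hC)).cons (hle _ hy)
    have hf := hT.1 (· ∈ LA ∅ θ) k _ hv
    set F : V → V := fun x => lea R3 (· ∈ LA ∅ θ) (cons x (cons (LA ∅ g) fun _ => κ.toZFSet))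
      with hF
    have hf' : SF.resS (LA ∅ ρ) F ∈ LA ∅ θ := hf
    have hFv : ∀ x ∈ LA ∅ ρ, F x ∈ κ.toZFSet := by
      intro x hx
      simp only [hF]
      by_cases h : ∃ ξ : Ordinal.{0}, ξ.toZFSet ∈ LA ∅ θ ∧ R3 (· ∈ LA ∅ θ)
          (cons ξ.toZFSet (cons x (cons (LA ∅ g) fun _ => κ.toZFSet)))
      · obtain ⟨ξ, hξ1, hξ2⟩ := h
        obtain ⟨β, hβ, h3, -, h4⟩ := lea_spec (R := R3) hξ1 hξ2
        rw [h3]
        exact h4.1
      · have h1 : {ξ : Ordinal.{0} | ξ.toZFSet ∈ LA ∅ θ ∧ R3 (· ∈ LA ∅ θ)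
            (cons ξ.toZFSet (cons x (cons (LA ∅ g) fun _ => κ.toZFSet)))} = ∅ := by
          ext α
          exact ⟨fun h2 => absurd ⟨α, h2⟩ h, fun h2 => h2.elim⟩
        unfold SF.lea
        rw [h1, Ordinal.sInf_empty]
        exact Ordinal.toZFSet_mem_toZFSet_iff.2 (by simpa using hκl.bot_lt)
    obtain ⟨γ, hγ, hγ2⟩ := hG.regκ _ hy _ hf' (isFunc_resS _ _ _ hFv)
    have hγ1 : γ + 1 < κ := hκl.succ_lt hγ
    rcases hcon (γ + 1) hγ1 with h0 | ⟨h, hh, ho⟩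
    · have : γ.toZFSet ∈ (γ + 1).toZFSet := Ordinal.toZFSet_mem_toZFSet_iff.2 (lt_add_one γ)
      rw [h0] at this
      exact ZFSet.notMem_empty _ this
    · have hRl : Rl (LA ∅ g) h ∈ LA ∅ θ :=
        (tm_Rl (Tm.var 0) (Tm.var 1)).1 (· ∈ LA ∅ θ) k (cons (LA ∅ g) fun _ => h)
          (In.cons (fun _ => hh) (hle _ hC))
      have hRy : Rl (LA ∅ g) h ∈ LA ∅ ρ := hρ2 _ hRl fun z hz => (ZFSet.mem_sep.1 hz).1
      have h1 := hγ2 _ hRy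
      rw [app_resS hRy] at h1
      have h2 : R3 (· ∈ LA ∅ θ) (cons (γ + 1).toZFSet (cons (Rl (LA ∅ g) h)
          (cons (LA ∅ g) fun _ => κ.toZFSet))) :=
        ⟨Ordinal.toZFSet_mem_toZFSet_iff.2 hγ1, h, hh, ho, rfl⟩
      obtain ⟨β, hβ, h3, -, h4, h', hh', ho', he⟩ :=
        lea_spec (R := R3) ((hG.ord _).2 (hγ1.trans hκθ)) h2
      have h5 : γ + 1 = β := rl_inj ho ho' he
      have h6 : F (Rl (LA ∅ g) h) = β.toZFSet := h3
      rw [h6, ← h5] at h1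
      exact absurd (Ordinal.toZFSet_mem_toZFSet_iff.1 h1) (not_lt_of_gt (lt_add_one γ))
  obtain ⟨m₀, hm₀, hm₀'⟩ := hex
  obtain ⟨m, hm, h3, h4, h5⟩ := lea_spec (R := R1) ((hG.ord _).2 (hm₀.trans hκθ))
    ((hR1 m₀).2 hm₀')
  refine ⟨m, hm.trans_lt hm₀, h3, (hR1 m).1 h5, fun δ hδ => ?_⟩
  by_contra hcon
  obtain ⟨β, hβ, h6, -, -⟩ := lea_spec (R := R1) (k.mle h4 hδ.le) ((hR1 δ).2 hcon)
  rw [h3] at h6
  exact absurd (Ordinal.toZFSet_injective h6 ▸ hβ) (not_le_of_gt hδ)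

/-- the next level -/
theorem nx {κ χ θ : Ordinal.{0}} (hG : Grd κ χ θ) {s : Ordinal.{0}} (hs : s < κ) :
    ∃ r < κ, lea R2 (· ∈ LA ∅ θ) (fun _ => s.toZFSet) = r.toZFSet ∧ s < r ∧
      ZFm (· ∈ LA ∅ r) ∧ ∀ x ∈ LA ∅ θ, x ⊆ LA ∅ s → x ∈ LA ∅ r := by
  have hκθ : κ < θ := hG.κχ.trans hG.χθ
  have hR2 : ∀ m : Ordinal.{0}, R2 (· ∈ LA ∅ θ) (cons m.toZFSet fun _ => s.toZFSet) ↔
      s < m ∧ ZFm (· ∈ LA ∅ m) ∧ ∀ x ∈ LA ∅ θ, x ⊆ LA ∅ s → x ∈ LA ∅ m := by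
    intro m
    unfold R2
    simp only [cons_zero, cons_succ, LAS_ord]
    rw [Ordinal.toZFSet_mem_toZFSet_iff]
  obtain ⟨ρ, hρ, hρ2⟩ := hG.powκ _ (LA_mem hG.zκ hs)
  obtain ⟨ρ', h1, h2, h3⟩ := hG.unbκ (max ρ s) (max_lt hρ hs)
  have h4 : ∀ x ∈ LA ∅ θ, x ⊆ LA ∅ s → x ∈ LA ∅ ρ' := fun x hx hxs =>
    Lh_mono ((le_max_left _ _).trans h1.le) (hρ2 x hx hxs)
  obtain ⟨r, hr, h5, -, h6⟩ := lea_spec (R := R2) ((hG.ord _).2 (h2.trans hκθ))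
    ((hR2 ρ').2 ⟨(le_max_right _ _).trans_lt h1, h3, h4⟩)
  exact ⟨r, hr.trans_lt h2, h5, (hR2 r).1 h6⟩

/-- the recursion step -/
theorem step {κ χ θ : Ordinal.{0}} (hG : Grd κ χ θ)
    (hSm : Dfb ZFm (fun M v => Sm M (v 0) (v 1))) {i : Ordinal.{0}} (hi : i < κ)
    {G U : Ordinal.{0} → Ordinal.{0}}
    (h1 : ∀ l < i, gam (· ∈ LA ∅ θ) l.toZFSet = (G l).toZFSet)
    (h2 : ∀ l < i, lea R1 (· ∈ LA ∅ θ) (fun _ => (G l).toZFSet) = (U l).toZFSet)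
    (h3 : ∀ l < i, U l < κ) :
    ∃ s < κ, (∀ l < i, U l < s) ∧ ∃ r < κ, s < r ∧ ZFm (· ∈ LA ∅ r) ∧
      (∀ x ∈ LA ∅ θ, x ⊆ LA ∅ s → x ∈ LA ∅ r) ∧ ∃ g < κ, r < g ∧ ZFm (· ∈ LA ∅ g) ∧
      (∀ x ∈ LA ∅ θ, x ⊆ LA ∅ r → x ∈ LA ∅ g) ∧
      gam (· ∈ LA ∅ θ) i.toZFSet = g.toZFSet := by
  have k : ZFm (· ∈ LA ∅ θ) := hG.zfc.toZFm
  have hκθ : κ < θ := hG.κχ.trans hG.χθ
  have hκl := (ht hG.zκ).1
  have hval : ∀ l < i, (lea R1 (· ∈ LA ∅ θ) fun _ => gam (· ∈ LA ∅ θ) l.toZFSet) =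
      (U l).toZFSet := by
    intro l hl
    rw [h1 l hl]
    exact h2 l hl
  -- bound
  have hT : Tm ZFm (fun M w => SF.resS (w 0) fun l => lea R1 M fun _ => gam M l) :=
    (Tm.resS (f := fun _ w => w 0) (g := fun M u => lea R1 M fun _ => gam M (u 0)) (Tm.var 0)
      (tm_lea1 (dfb_R1 hSm) (tm_gam hSm))).congr fun M k v hv => rfl
  have hf : (SF.resS i.toZFSet fun l => lea R1 (· ∈ LA ∅ θ) fun _ => gam (· ∈ LA ∅ θ) l) ∈
      LA ∅ θ := hT.1 (· ∈ LA ∅ θ) k (fun _ => i.toZFSet) fun _ => (hG.ord i).2 (hi.trans hκθ)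
  obtain ⟨β, hβ, hβ2⟩ := hG.regκ i.toZFSet (((ht hG.zκ).2 i).2 hi) _ hf (isFunc_resS _ _ _ (by
    intro x hx
    obtain ⟨l, hl, rfl⟩ := Ordinal.mem_toZFSet_iff.1 hx
    rw [hval l hl]
    exact Ordinal.toZFSet_mem_toZFSet_iff.2 (h3 l hl)))
  have hβ3 : ∀ l < i, U l < β := by
    intro l hl
    have h4 := hβ2 _ (Ordinal.toZFSet_mem_toZFSet_iff.2 hl)
    rw [app_resS (Ordinal.toZFSet_mem_toZFSet_iff.2 hl), hval l hl] at h4
    exact Ordinal.toZFSet_mem_toZFSet_iff.1 h4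
  have hne : β ∈ {s : Ordinal.{0} | ∀ l < i, U l < s} := hβ3
  obtain ⟨s, hs⟩ : ∃ s, s = sInf {s : Ordinal.{0} | ∀ l < i, U l < s} := ⟨_, rfl⟩
  have hs1 : ∀ l < i, U l < s := hs ▸ csInf_mem (⟨β, hne⟩ : Set.Nonempty _)
  have hs2 : s ≤ β := hs ▸ csInf_le' hne
  have hs3 : (⋃₀ (imS i.toZFSet fun l => insert (lea R1 (· ∈ LA ∅ θ) fun _ => gam (· ∈ LA ∅ θ) l)
      (lea R1 (· ∈ LA ∅ θ) fun _ => gam (· ∈ LA ∅ θ) l)) : ZFSet) = s.toZFSet := by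
    ext z
    rw [ZFSet.mem_sUnion]
    constructor
    · rintro ⟨_, hw, hz⟩
      obtain ⟨x, hx, rfl⟩ := mem_imS.1 hw
      obtain ⟨l, hl, rfl⟩ := Ordinal.mem_toZFSet_iff.1 hx
      rw [hval l hl] at hz
      rcases ZFSet.mem_insert_iff.1 hz with h4 | h4
      · rw [h4]
        exact Ordinal.toZFSet_mem_toZFSet_iff.2 (hs1 l hl)
      · obtain ⟨α, hα, rfl⟩ := Ordinal.mem_toZFSet_iff.1 h4
        exact Ordinal.toZFSet_mem_toZFSet_iff.2 (hα.trans (hs1 l hl))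
    · intro hz
      obtain ⟨α, hα, rfl⟩ := Ordinal.mem_toZFSet_iff.1 hz
      have h4 : ¬ ∀ l < i, U l < α := fun h5 =>
        absurd (hs ▸ csInf_le' (show α ∈ {s : Ordinal.{0} | ∀ l < i, U l < s} from h5))
          (not_le_of_gt hα)
      push Not at h4
      obtain ⟨l, hl, h5⟩ := h4
      refine ⟨_, mem_imS.2 ⟨l.toZFSet, Ordinal.toZFSet_mem_toZFSet_iff.2 hl, rfl⟩, ?_⟩
      rw [hval l hl]
      rcases h5.lt_or_eq with h6 | h6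
      · exact ZFSet.mem_insert_iff.2 (Or.inr (Ordinal.toZFSet_mem_toZFSet_iff.2 h6))
      · exact ZFSet.mem_insert_iff.2 (Or.inl (by rw [h6]))
  have hsκ : s < κ := hs2.trans_lt hβ
  obtain ⟨r, hr, hr1, hr2, hr3, hr4⟩ := nx hG hsκ
  obtain ⟨g, hg, hg1, hg2, hg3, hg4⟩ := nx hG hr
  refine ⟨s, hsκ, hs1, r, hr, hr2, hr3, hr4, g, hg, hg2, hg3, hg4, ?_⟩
  rw [gam_eq, hs3, hr1, hg1]

end GDx

open GDx

theorem pf_GD (hGC : T_GC) (hDF : T_DF) : T_GD := by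
  intro κ χ θ hG
  have k : ZFm (· ∈ LA ∅ θ) := hG.zfc.toZFm
  have kκ := hG.zκ
  have kχ := hG.zχ
  have hκθ : κ < θ := hG.κχ.trans hG.χθ
  have hLκχ : LA ∅ κ ∈ LA ∅ χ := LA_mem kχ hG.κχ
  have hle : ∀ {a b : Ordinal.{0}}, a ≤ b → ∀ x ∈ LA ∅ a, x ∈ LA ∅ b :=
    fun h x hx => Lh_mono h hx
  have hgd : ∀ g : Ordinal.{0}, ZFm (· ∈ LA ∅ g) → Gd (LA ∅ g) := by
    intro g hg
    exact hGC g (ht hg).1 (((ht hg).2 ω).1 hg.inf)
  have hSm : Dfb ZFm (fun M v => Sm M (v 0) (v 1)) :=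
    (hDF (· ∈ LA ∅ θ) k (LA ∅ κ) (hle hG.χθ.le _ hLκχ) (hgd κ kκ)).2.2.2.2.2.2.2.2.2
  -- the sequences
  obtain ⟨γ, hγ⟩ : ∃ γ : Ordinal.{0} → Ordinal.{0},
      γ = fun i => (gam (· ∈ LA ∅ θ) i.toZFSet).rank := ⟨_, rfl⟩
  obtain ⟨μ, hμ⟩ : ∃ μ : Ordinal.{0} → Ordinal.{0},
      μ = fun i => (lea R1 (· ∈ LA ∅ θ) fun _ => (γ i).toZFSet).rank := ⟨_, rfl⟩
  have key : ∀ i < κ, gam (· ∈ LA ∅ θ) i.toZFSet = (γ i).toZFSet ∧
      (lea R1 (· ∈ LA ∅ θ) fun _ => (γ i).toZFSet) = (μ i).toZFSet ∧ γ i < κ ∧ μ i < κ := by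
    intro i
    induction i using WellFoundedLT.induction with
    | _ i ih =>
      intro hi
      obtain ⟨s, hs, hs1, r, hr, hr1, hr2, hr3, g, hg, hg1, hg2, hg3, hg4⟩ := step hG hSm hi
        (fun l hl => (ih l hl (hl.trans hi)).1) (fun l hl => (ih l hl (hl.trans hi)).2.1)
        (fun l hl => (ih l hl (hl.trans hi)).2.2.2)
      have h1 : γ i = g := by
        rw [hγ]
        show (gam (· ∈ LA ∅ θ) i.toZFSet).rank = g
        rw [hg4, Ordinal.rank_toZFSet]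
      obtain ⟨m, hm, hm1, -, -⟩ := mu0 hG hSm hg
      have h2 : μ i = m := by
        rw [hμ]
        show (lea R1 (· ∈ LA ∅ θ) fun _ => (γ i).toZFSet).rank = m
        rw [h1, hm1, Ordinal.rank_toZFSet]
      rw [h2, h1]
      exact ⟨hg4, hm1, hg, hm⟩
  -- the step for all i
  have key2 : ∀ i < κ, ∃ s < κ, (∀ l < i, μ l < s) ∧ ∃ r < κ, s < r ∧ ZFm (· ∈ LA ∅ r) ∧
      (∀ x ∈ LA ∅ θ, x ⊆ LA ∅ s → x ∈ LA ∅ r) ∧ r < γ i ∧ ZFm (· ∈ LA ∅ (γ i)) ∧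
      (∀ x ∈ LA ∅ θ, x ⊆ LA ∅ r → x ∈ LA ∅ (γ i)) := by
    intro i hi
    obtain ⟨s, hs, hs1, r, hr, hr1, hr2, hr3, g, hg, hg1, hg2, hg3, hg4⟩ := step hG hSm hi
      (fun l hl => (key l (hl.trans hi)).1) (fun l hl => (key l (hl.trans hi)).2.1)
      (fun l hl => (key l (hl.trans hi)).2.2.2)
    have h1 : γ i = g := Ordinal.toZFSet_injective ((key i hi).1.symm.trans hg4)
    rw [h1]
    exact ⟨s, hs, hs1, r, hr, hr1, hr2, hr3, hg1, hg2, hg3⟩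
  have key3 : ∀ i < κ, ¬ Sm (· ∈ LA ∅ θ) (LA ∅ (γ i)) (μ i).toZFSet ∧
      ∀ δ < μ i, Sm (· ∈ LA ∅ θ) (LA ∅ (γ i)) δ.toZFSet := by
    intro i hi
    obtain ⟨m, hm, hm1, hm2, hm3⟩ := mu0 hG hSm (key i hi).2.2.1
    have h2 : μ i = m := Ordinal.toZFSet_injective ((key i hi).2.1.symm.trans hm1)
    rw [h2]
    exact ⟨hm2, hm3⟩
  have hγμ : ∀ i < κ, γ i < μ i := by
    intro i hi
    by_contra hcon
    rw [not_lt] at hcon
    obtain ⟨s, hs, hs1, r, hr, hr1, hr2, hr3, hg1, hg2, hg3⟩ := key2 i hi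
    have h1 := (hDF (· ∈ LA ∅ θ) k (LA ∅ (γ i)) (LA_mem k ((key i hi).2.2.1.trans hκθ))
      (hgd _ hg2)).2.1 (μ i).toZFSet ((hG.ord _).2 ((key i hi).2.2.2.trans hκθ))
      (fun x hx => ord_sub (γ i) (Ordinal.toZFSet_subset_toZFSet_iff.2 hcon hx))
    exact (key3 i hi).1 h1
  have hiγ : ∀ i < κ, i < γ i := by
    intro i
    induction i using WellFoundedLT.induction with
    | _ i ih =>
      intro hi
      obtain ⟨s, hs, hs1, r, hr, hr1, hr2, hr3, hg1, hg2, hg3⟩ := key2 i hi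
      refine lt_of_le_of_lt ?_ (hr1.trans hg1)
      refine le_of_forall_lt fun l hl => ?_
      exact ((ih l hl (hl.trans hi)).trans (hγμ l (hl.trans hi))).trans (hs1 l hl)
  have his : ∀ i < κ, ∀ s, (∀ l < i, μ l < s) → i ≤ s := by
    intro i hi s hs1
    refine le_of_forall_lt fun l hl => ?_
    exact ((hiγ l (hl.trans hi)).trans (hγμ l (hl.trans hi))).trans (hs1 l hl)
  -- the functions as sets
  have hga : (SF.resS κ.toZFSet fun l => gam (· ∈ LA ∅ θ) l) ∈ LA ∅ θ := by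
    have hT : Tm ZFm (fun M w => SF.resS (w 0) fun l => gam M l) :=
      (Tm.resS (f := fun _ w => w 0) (g := fun M u => gam M (u 0)) (Tm.var 0)
        (tm_gam hSm)).congr fun M k v hv => rfl
    exact hT.1 (· ∈ LA ∅ θ) k (fun _ => κ.toZFSet) fun _ => (hG.ord κ).2 hκθ
  have hmu : (SF.resS κ.toZFSet fun l => lea R1 (· ∈ LA ∅ θ) fun _ => gam (· ∈ LA ∅ θ) l) ∈
      LA ∅ θ := by
    have hT : Tm ZFm (fun M w => SF.resS (w 0) fun l => lea R1 M fun _ => gam M l) :=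
      (Tm.resS (f := fun _ w => w 0) (g := fun M u => lea R1 M fun _ => gam M (u 0)) (Tm.var 0)
        (tm_lea1 (dfb_R1 hSm) (tm_gam hSm))).congr fun M k v hv => rfl
    exact hT.1 (· ∈ LA ∅ θ) k (fun _ => κ.toZFSet) fun _ => (hG.ord κ).2 hκθ
  have hmuA : ∀ i < κ, (lea R1 (· ∈ LA ∅ θ) fun _ => gam (· ∈ LA ∅ θ) i.toZFSet) =
      (μ i).toZFSet := by
    intro i hi
    rw [(key i hi).1]
    exact (key i hi).2.1
  refine ⟨γ, μ, _, _, ⟨fun i hi => (key i hi).2.2.1, fun i hi => (key i hi).2.2.2, hiγ, hγμ,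
    ?_, ?_, fun i hi => (key3 i hi).2, fun i hi => (key3 i hi).1, ?_, ?_,
    hG.subχ _ hLκχ _ hga ?_, hG.subχ _ hLκχ _ hmu ?_, ?_, ?_⟩⟩
  · intro i j hij hj
    obtain ⟨s, hs, hs1, r, hr, hr1, hr2, hr3, hg1, hg2, hg3⟩ := key2 j hj
    exact ((hs1 i hij).trans hr1).trans hg1
  · intro i hi
    obtain ⟨s, hs, hs1, r, hr, hr1, hr2, hr3, hg1, hg2, hg3⟩ := key2 i hi
    exact hg2
  · intro i hi x hx hxi
    obtain ⟨s, hs, hs1, r, hr, hr1, hr2, hr3, hg1, hg2, hg3⟩ := key2 i hi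
    have h1 : x ∈ LA ∅ r := hr3 x hx fun z hz =>
      ord_sub s (Ordinal.toZFSet_subset_toZFSet_iff.2 (his i hi s hs1) (hxi hz))
    exact hle hg1.le _ h1
  · intro i hi x hx hxi
    obtain ⟨s, hs, hs1, r, hr, hr1, hr2, hr3, hg1, hg2, hg3⟩ := key2 i hi
    refine hg3 x hx fun z hz => ?_
    obtain ⟨l, hl, q, hq, hqm, rfl⟩ := hxi z hz
    refine hr2.mpair (((ht hr2).2 l).2 ((hl.trans_le (his i hi s hs1)).trans hr1)) ?_
    exact hr3 q hq fun w hw =>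
      ord_sub s (Ordinal.toZFSet_subset_toZFSet_iff.2 (hs1 l hl).le (hqm hw))
  · intro z hz
    obtain ⟨x, hx, rfl⟩ := mem_resS.1 hz
    obtain ⟨i, hi, rfl⟩ := Ordinal.mem_toZFSet_iff.1 hx
    rw [(key i hi).1]
    exact kκ.mpair (((ht kκ).2 i).2 hi) (((ht kκ).2 _).2 (key i hi).2.2.1)
  · intro z hz
    obtain ⟨x, hx, rfl⟩ := mem_resS.1 hz
    obtain ⟨i, hi, rfl⟩ := Ordinal.mem_toZFSet_iff.1 hx
    rw [hmuA i hi]
    exact kκ.mpair (((ht kκ).2 i).2 hi) (((ht kκ).2 _).2 (key i hi).2.2.2)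
  · intro i hi
    rw [app_resS (Ordinal.toZFSet_mem_toZFSet_iff.2 hi)]
    exact (key i hi).1
  · intro i hi
    rw [app_resS (Ordinal.toZFSet_mem_toZFSet_iff.2 hi)]
    exact hmuA i hi

end CAA
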