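import Pool.Agent.H9.CA.TarQ
import Pool.Agent.H74.CA.DX

/-!
# Part Q, (QG): the aa formula
-/

set_option linter.unusedVariables false

open Ordinal Order Set
open scoped ZFSet

namespace CAA

open SF

namespace QGx

variable {i j k : ℕ}

theorem dfb_up (i j k : ℕ) : Dfb KT (fun _ v => v i = ({v j, v k} : V)) := by
  refine ((Dfb.mem (Tm.var j) (Tm.var i)).and ((Dfb.mem (Tm.var k) (Tm.var i)).and
    (Dfb.ball (R := fun _ v => v 0 = v (j + 1) ∨ v 0 = v (k + 1)) ktr_kt (Tm.var i)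
      ((Dfb.eq (Tm.var 0) (Tm.var (j + 1))).or (Dfb.eq (Tm.var 0) (Tm.var (k + 1))))))).congr
    fun M _ v _ => ?_
  simp only [cons_zero, cons_succ]
  constructor
  · rintro ⟨h1, h2, h3⟩
    ext z
    rw [ZFSet.mem_pair]
    constructor
    · exact h3 z
    · rintro (rfl | rfl)
      · exact h1
      · exact h2
  · intro h
    rw [h]
    refine ⟨ZFSet.mem_pair.2 (Or.inl rfl), ZFSet.mem_pair.2 (Or.inr rfl), fun z hz => ?_⟩
    exact ZFSet.mem_pair.1 hz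

theorem dfb_pr (i j k : ℕ) : Dfb KT (fun _ v => v i = ZFSet.pair (v j) (v k)) := by
  refine (Dfb.bex (R := fun _ v => ∃ b ∈ v (i + 1), (v 0 = ({v (j + 1), v (j + 1)} : V)) ∧
      (b = ({v (j + 1), v (k + 1)} : V)) ∧ (v (i + 1) = ({v 0, b} : V))) ktr_kt (Tm.var i)
    ((Dfb.bex (R := fun _ v => (v 1 = ({v (j + 2), v (j + 2)} : V)) ∧
      (v 0 = ({v (j + 2), v (k + 2)} : V)) ∧ (v (i + 2) = ({v 1, v 0} : V))) ktr_kt
      (Tm.var (i + 1)) ((dfb_up 1 (j + 2) (j + 2)).and ((dfb_up 0 (j + 2) (k + 2)).and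
        (dfb_up (i + 2) 1 0)))).congr fun M _ v _ => Iff.rfl)).congr fun M _ v _ => ?_
  simp only [cons_zero, cons_succ]
  unfold ZFSet.pair
  constructor
  · rintro ⟨a, ha, b, hb, rfl, rfl, h⟩
    rw [h, ZFSet.pair_eq_singleton]
  · intro h
    rw [h]
    refine ⟨{v j}, ZFSet.mem_pair.2 (Or.inl rfl), {v j, v k}, ZFSet.mem_pair.2 (Or.inr rfl),
      ?_, rfl, rfl⟩
    rw [ZFSet.pair_eq_singleton]

/-- `i ∈ dm p` -/
def Ra (M : V → Prop) (v : ℕ → V) : Prop := ∃ y, M y ∧ ∃ w ∈ v 1, w = ZFSet.pair (v 0) y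

/-- the part without `s`; variables `δ, e, m, i, p` -/
def Rb (M : V → Prop) (v : ℕ → V) : Prop := (∃ c, M c ∧ (∃ w ∈ v 4, w = ZFSet.pair (v 3) c) ∧
  c = ZFSet.pair (v 2) (v 1)) ∧ v 0 ∈ v 1

theorem dfb_Ra : Dfb KT Ra :=
  (Dfb.ex (R := fun _ v => ∃ w ∈ v 2, w = ZFSet.pair (v 1) (v 0))
    ((Dfb.bex (R := fun _ v => v 0 = ZFSet.pair (v 2) (v 1)) ktr_kt (Tm.var 2)
      (dfb_pr 0 2 1)).congr fun M _ v _ => Iff.rfl)).congr fun M _ v _ => Iff.rfl

theorem dfb_Rb : Dfb KT Rb :=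
  ((Dfb.ex (R := fun _ v => (∃ w ∈ v 5, w = ZFSet.pair (v 4) (v 0)) ∧
      v 0 = ZFSet.pair (v 3) (v 2))
    (((Dfb.bex (R := fun _ v => v 0 = ZFSet.pair (v 5) (v 1)) ktr_kt (Tm.var 5)
      (dfb_pr 0 5 1)).congr fun M _ v _ => Iff.rfl).and (dfb_pr 0 3 2))).congr
    fun M _ v _ => Iff.rfl).and (Dfb.mem (Tm.var 0) (Tm.var 1))

/-- first-order relations as formulas of stationary logic -/
theorem aa_of_dfb {R : (V → Prop) → (ℕ → V) → Prop} (hR : Dfb KT R) : ∃ φ : AF,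
    ∀ (N : V → Prop) (A : V) (v s : ℕ → V), A.IsTransitive → (∀ i, v i ∈ A) →
      (AaSat N A φ v s ↔ R (· ∈ A) v) := by
  obtain ⟨φ, hφ⟩ := hR
  refine ⟨X74.tr φ.np, fun N A v s hA hv => ?_⟩
  rw [X74.aaSat_tr, satP_np]
  exact hφ (· ∈ A) (fun x hx y hy => hA x hx hy) v hv

/-- the elements of `s` in `m` are in `δ` -/
def f1 : AF := .neg (.ex (.and (.ins 0 0) (.and (.mem 0 3) (.neg (.mem 0 1)))))

/-- `x ∈ s`, `x ∈ m`, and `ξ ∈ x` or `ξ = x` -/
def f3 : AF := .and (.ins 0 0) (.and (.mem 0 4) (.neg (.and (.neg (.mem 1 0)) (.neg (.eq 1 0)))))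

/-- the elements of `δ` are bounded by elements of `s` in `m` -/
def f2 : AF := .neg (.ex (.and (.mem 0 1) (.neg (.ex f3))))

theorem snd_mem {A w x y : V} (hA : A.IsTransitive) (h : ZFSet.pair x y ∈ A) : x ∈ A ∧ y ∈ A := by
  have h1 : ({x, y} : V) ∈ A := by
    refine hA _ h ?_
    unfold ZFSet.pair
    exact ZFSet.mem_pair.2 (Or.inr rfl)
  exact ⟨hA _ h1 (ZFSet.mem_pair.2 (Or.inl rfl)), hA _ h1 (ZFSet.mem_pair.2 (Or.inr rfl))⟩

end QGx

open QGx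

theorem pf_QG : T_QG := by
  obtain ⟨φa, ha⟩ := aa_of_dfb dfb_Ra
  obtain ⟨φb, hb⟩ := aa_of_dfb dfb_Rb
  refine ⟨.and φa (.aa (.neg (.ex (.ex (.ex (.and φb (.and f1 f2))))))),
    fun N A p i hA hp hi => ?_⟩
  have hv : ∀ j, cons i (fun _ => p) j ∈ A := by
    intro j
    cases j with
    | zero => exact hi
    | succ j => exact hp
  have h1 : Ra (· ∈ A) (cons i fun _ => p) ↔ i ∈ dm p := by
    unfold Ra
    rw [mem_dm]
    simp only [cons_zero, cons_succ]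
    constructor
    · rintro ⟨y, -, w, hw, rfl⟩
      exact ⟨y, hw⟩
    · rintro ⟨y, hy⟩
      exact ⟨y, (snd_mem (w := p) hA (hA _ hp hy)).2, _, hy, rfl⟩
  simp only [AaSat, f1, f2, f3]
  rw [ha N A _ _ hA hv, h1]
  refine and_congr_right fun _ => exists_congr fun F => and_congr_right fun _ =>
    and_congr_right fun _ => forall_congr' fun z => imp_congr_right fun _ =>
    imp_congr_right fun _ => imp_congr_right fun hzA => imp_congr_right fun _ => not_congr ?_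
  constructor
  · rintro ⟨m, hm, e, he, δ, hδ, h2, h3, h4⟩
    have hv' : ∀ j, cons δ (cons e (cons m (cons i fun _ => p))) j ∈ A := by
      intro j
      rcases j with _ | _ | _ | j
      · exact hδ
      · exact he
      · exact hm
      · exact hv j
    obtain ⟨⟨c, hc, ⟨w, hw, h5⟩, h6⟩, h7⟩ := (hb N A _ _ hA hv').1 h2
    simp only [cons_zero, cons_succ] at hw h5 h6 h7 h3 h4
    refine ⟨m, e, δ, ?_, h7, fun x hx hxm => ?_, fun ξ hξ => ?_⟩
    · rw [← h6, ← h5]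
      exact hw
    · by_contra h8
      exact h3 ⟨x, hzA hx, hx, hxm, h8⟩
    · by_contra h8
      refine h4 ⟨ξ, hA _ hδ hξ, hξ, ?_⟩
      rintro ⟨x, hx, h9, h10, h11⟩
      refine h8 ⟨x, h9, h10, ?_⟩
      by_contra h12
      rw [not_or] at h12
      exact h11 h12
  · rintro ⟨m, e, δ, h2, h3, h4, h5⟩
    have h6 := (snd_mem (w := p) hA (hA _ hp h2)).2
    obtain ⟨hm, he⟩ := snd_mem (w := p) hA h6
    have hδ := hA _ he h3
    have hv' : ∀ j, cons δ (cons e (cons m (cons i fun _ => p))) j ∈ A := by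
      intro j
      rcases j with _ | _ | _ | j
      · exact hδ
      · exact he
      · exact hm
      · exact hv j
    refine ⟨m, hm, e, he, δ, hδ, (hb N A _ _ hA hv').2
      ⟨⟨_, h6, ⟨_, h2, rfl⟩, rfl⟩, h3⟩, ?_, ?_⟩
    · rintro ⟨x, hx, h7, h8, h9⟩
      exact h9 (h4 x h7 h8)
    · rintro ⟨ξ, hξ, h7, h8⟩
      obtain ⟨x, h9, h10, h11⟩ := h5 ξ h7
      refine h8 ⟨x, hzA h9, h9, h10, fun h12 => ?_⟩
      rcases h11 with h11 | h11
      · exact h12.1 h11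
      · exact h12.2 h11

end CAA
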